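import Pool.Agent.Q230.CM.Hard

/-!
# Constrained matrix invertibility over the reals is `∃ℝ`-complete
-/

namespace Pool.Agent.Results.MP_49d20d_lc.InvertibilityComplete

open Pool.Agent.NPC Pool.Agent.NPC.ER Pool.Agent.Q230.CM

/-- Constrained matrix invertibility over the reals is `∃ℝ`-complete. -/
theorem result : ERComplete (lang ConstrainedInvertible) :=
  ⟨mem, hard⟩

end Pool.Agent.Results.MP_49d20d_lc.InvertibilityComplete
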